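import Pool.Agent.V7H10.DR.Fin

/-!
# MP_07046b_lc, Q1: Fourier matrices are not Valiant-rigid over their own cyclotomic fields

Answer to Q1: the family `(D_N)`, `D_N = (ω_N ^ (i j))`, is **not** Valiant-rigid over the fields `ℚ[ω_N]`.

Orders used: `N = N₁ M`, where `N₁` is a product of distinct primes `p` such that every prime power dividing `p - 1`
is at most `p ^ (1/2 - κ)` (there are enough of them, by the Bombieri-Vinogradov theorem and a sieve bound), and `M` is
the least common multiple of the numbers `p - 1`. Then `M` is tiny compared with `N` and `ℚ[ω_N]` contains all roots of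
unity of order dividing some `p - 1`.
* `D_N` is, up to permutations of the rows and columns, the tensor product of `D_{N₁}` and `D_M`; up to few rows and
  columns `D_{N₁}` is a matrix `f (x y)` over the unit group `G` of `ℤ/N₁`.
* `G` is a product of cyclic groups `ℤ/d` with `d` a prime power dividing some `p - 1`, so `f (x y)` is
  `X * diagonal * X` with `X` the tensor product of the Fourier matrices of these groups, over `ℚ[ω_N]`.
* The Fourier matrix of order `d` is a product of `d` elementary row operations (Vandermonde minors do not vanish);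
  the `n`-th tensor power of an elementary row operation differs from a matrix of relative rank `2 exp(-θ² n / 4d)` in
  at most `exp((2 θ n / d) (1 + log (d² / 2 θ)))` entries per line.
-/

set_option autoImplicit false

namespace Pool.Agent.Results.MP_07046b_lc.NotValiantRigidH10

open Finset IntermediateField

/-- The number of entries in which two `N × N` matrices differ. -/
noncomputable def changes {F : Type} {N : ℕ} (A B : Matrix (Fin N) (Fin N) F) : ℕ :=
  Nat.card {p : Fin N × Fin N // A p.1 p.2 ≠ B p.1 p.2}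

/-- The rigidity `R^F_M(r)`: the least number of entries of `M` that must be changed, the new entries being taken
from `F`, so that the resulting matrix `A` has rank at most `r` over `F`. -/
noncomputable def rigidity {F : Type} [Field F] {N : ℕ} (M : Matrix (Fin N) (Fin N) F) (r : ℝ) : ℕ :=
  sInf {k : ℕ | ∃ A : Matrix (Fin N) (Fin N) F, (A.rank : ℝ) ≤ r ∧ changes A M = k}

/-- A family of `N × N` matrices `M N` over the fields `F N`, `N ≥ 1`, is Valiant-rigid. -/
def ValiantRigid (F : ℕ → Type) [∀ N, Field (F N)] (M : ∀ N, Matrix (Fin N) (Fin N) (F N)) : Prop :=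
  ∃ ε : ℝ, 0 < ε ∧ ∃ δ : ℝ, 0 < δ ∧ ∃ N₀ : ℕ, ∀ N : ℕ, 1 ≤ N → N₀ ≤ N →
    (N : ℝ) ^ (1 + δ) ≤ (rigidity (M N) (ε * N) : ℝ)

/-- The Fourier matrix `(ω ^ (i j))`, `0 ≤ i, j < N`. -/
def dft {F : Type} [Field F] (N : ℕ) (ω : F) : Matrix (Fin N) (Fin N) F :=
  Matrix.of fun i j => ω ^ ((i : ℕ) * (j : ℕ))

lemma rigidity_le {F : Type} [Field F] {N : ℕ} (M A : Matrix (Fin N) (Fin N) F) (r : ℝ)
    (h : (A.rank : ℝ) ≤ r) : rigidity M r ≤ changes A M :=
  Nat.sInf_le ⟨A, h, rfl⟩

lemma rigidity_anti {F : Type} [Field F] {N : ℕ} (M : Matrix (Fin N) (Fin N) F) (r r' : ℝ)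
    (hr : 0 ≤ r) (h : r ≤ r') : rigidity M r' ≤ rigidity M r := by
  have hne : {k : ℕ | ∃ A : Matrix (Fin N) (Fin N) F, (A.rank : ℝ) ≤ r ∧ changes A M = k}.Nonempty :=
    ⟨_, 0, by simpa using hr, rfl⟩
  obtain ⟨A, hA, hAk⟩ := Nat.sInf_mem hne
  have h1 := rigidity_le M A r' (hA.trans h)
  rw [hAk] at h1
  exact h1

/-- A quantitative form over all fields: there is an absolute constant `c > 0` such that for every `δ > 0` there are
arbitrarily large `N` such that, over every field `K` (of any characteristic) with a primitive `N`-th root of unity `ζ`,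
the rank of the matrix `(ζ ^ (i j))` can be reduced to at most `N / (log N)^c` by fewer than `N ^ (1 + δ)` changes
in `K`. -/
theorem quantitative : ∃ c : ℝ, 0 < c ∧ ∀ δ : ℝ, 0 < δ → ∀ N₀ : ℕ, ∃ N : ℕ, N₀ ≤ N ∧ 3 ≤ N ∧
    ∀ (K : Type) [Field K] (ζ : K), IsPrimitiveRoot ζ N →
      (rigidity (dft N ζ) (N / Real.log N ^ c) : ℝ) < (N : ℝ) ^ (1 + δ) := by
  obtain ⟨c, hc, h⟩ := Pool.Agent.V7H10.DR.main_general
  refine ⟨c, hc, fun δ hδ N₀ => ?_⟩
  obtain ⟨N, h1, h2, h3⟩ := h δ hδ N₀
  refine ⟨N, h1, h2, fun K _ ζ hζ => ?_⟩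
  obtain ⟨r, s, hdec, hr, hs⟩ := h3 K ζ hζ
  obtain ⟨A, hA, hch⟩ := hdec.rank_card
  refine lt_of_le_of_lt ?_ hs
  refine le_trans (Nat.cast_le.2 (rigidity_le (dft N ζ) A _ (hA.trans hr))) ?_
  rw [Fintype.card_fin] at hch
  refine le_trans (le_of_eq ?_) hch
  classical
  unfold changes
  rw [Nat.card_eq_fintype_card, Fintype.card_subtype]
  congr!

/-- **Q1: the Fourier matrices are not Valiant-rigid over the cyclotomic fields `ℚ[ω_N] ⊆ ℂ`**, for any choice of the
primitive roots of unity `ω_N`. -/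
theorem result (ω : ℕ → ℂ) (hω : ∀ N, 1 ≤ N → IsPrimitiveRoot (ω N) N) :
    ¬ ValiantRigid (fun N => ℚ⟮ω N⟯) (fun N => dft N (AdjoinSimple.gen ℚ (ω N))) := by
  rintro ⟨ε, hε, δ, hδ, N₀, hN₀⟩
  obtain ⟨c, hc, h⟩ := quantitative
  -- make `(log N)^c` large
  have hlim : Filter.Tendsto (fun N : ℕ => Real.log N ^ c) Filter.atTop Filter.atTop :=
    (tendsto_rpow_atTop hc).comp (Real.tendsto_log_atTop.comp tendsto_natCast_atTop_atTop)
  obtain ⟨N₁, hN₁⟩ := Filter.eventually_atTop.1 (hlim.eventually_ge_atTop (1 / ε))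
  obtain ⟨N, h1, h2, h3⟩ := h δ hδ (max N₀ N₁)
  have hprim : IsPrimitiveRoot (AdjoinSimple.gen ℚ (ω N)) N := by
    apply IsPrimitiveRoot.of_map_of_injective (f := (ℚ⟮ω N⟯).val)
    · have := hω N (by omega)
      rw [show (ℚ⟮ω N⟯).val (AdjoinSimple.gen ℚ (ω N)) = ω N from AdjoinSimple.coe_gen ℚ (ω N)]
      exact this
    · exact (ℚ⟮ω N⟯).val.injective
  have h4 := h3 ℚ⟮ω N⟯ (AdjoinSimple.gen ℚ (ω N)) hprim
  have h5 := hN₀ N (by omega) ((le_max_left _ _).trans h1)
  have h6 := hN₁ N ((le_max_right _ _).trans h1)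
  have hN3 : (3 : ℝ) ≤ N := by exact_mod_cast h2
  have hlog : 0 < Real.log N ^ c := Real.rpow_pos_of_pos (Real.log_pos (by linarith)) c
  have h7 : (N : ℝ) / Real.log N ^ c ≤ ε * N := by
    rw [div_le_iff₀ hlog]
    have h8 : 1 ≤ Real.log N ^ c * ε := by rwa [div_le_iff₀ hε] at h6
    nlinarith
  have h9 := rigidity_anti (dft N (AdjoinSimple.gen ℚ (ω N))) _ _ (by positivity) h7
  have h10 : (rigidity (dft N (AdjoinSimple.gen ℚ (ω N))) (ε * N) : ℝ) ≤
      rigidity (dft N (AdjoinSimple.gen ℚ (ω N))) (N / Real.log N ^ c) := by exact_mod_cast h9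
  have h11 := h5.trans h10
  linarith

end Pool.Agent.Results.MP_07046b_lc.NotValiantRigidH10
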